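import Pool.Agent.V11258.HD.Haus

/-! MP_b87f19_lc, Q1: ZFC refutes `(∗)`; exact dichotomy for single gauges. -/

namespace Pool.Agent.Results.MP_b87f19_lc.GaugeDichotomy

open Set MeasureTheory Filter Topology Pool.Agent.V11258.HD
open scoped ENNReal NNReal

/-- `(∗)` for a single gauge `f`. -/
def StarFor (f : ℝ≥0 → ℝ≥0) : Prop :=
  ∀ A : Set ℝ, 0 < H f A → ∃ A₀ ⊆ A, 0 < H f A₀ ∧ H f A₀ < ∞

/-- The statement `(∗)`. -/
def Star : Prop := ∀ f : ℝ≥0 → ℝ≥0, IsGauge f → StarFor f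

lemma H_singleton {f : ℝ≥0 → ℝ≥0} (h0 : f 0 = 0) (x : ℝ) : H f {x} = 0 := by
  apply le_antisymm _ zero_le
  refine iSup₂_le fun δ _ => ?_
  refine iInf₂_le_of_le (fun _ => {x}) (by simp) ?_
  refine iInf_le_of_le (by simp) ?_
  simp [h0]

/-- The universally null set attached to a steep gauge. -/
theorem steep_case {f : ℝ≥0 → ℝ≥0} (hf : IsGauge f) (hs : Steep f) :
    ∃ X : Set ℝ, X ⊆ Icc 0 1 ∧ H f X = ∞ ∧
      (∀ μ : Measure ℝ, SFinite μ → (∀ x, μ {x} = 0) → μ X = 0) ∧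
      ∀ A₀ ⊆ X, H f A₀ = 0 ∨ H f A₀ = ∞ := by
  obtain ⟨S, hdec, n₀, hS, hC, hn₀⟩ := exists_sparse hs
  obtain ⟨X, hX, hpos, hun⟩ := exists_un S hS hC
  have hHpos := H_pos hf S hC n₀ hn₀ X hX
  have hdich : ∀ A₀ ⊆ X, H f A₀ = 0 ∨ H f A₀ = ∞ := by
    intro A₀ hA
    by_contra hcon
    push Not at hcon
    obtain ⟨h1, h2⟩ := hcon
    let ν : Measure ℝ := (Measure.mkMetric (cost f)).restrict A₀
    have hfin : IsFiniteMeasure ν := ⟨by
      rw [Measure.restrict_apply_univ, ← H_eq hf.2.2.1]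
      exact lt_top_iff_ne_top.2 h2⟩
    have hat : ∀ x, ν {x} = 0 := by
      intro x
      apply le_antisymm _ zero_le
      refine (Measure.restrict_apply_le _ _).trans ?_
      rw [← H_eq hf.2.2.1, H_singleton hf.2.2.1]
    have h3 : ν X = 0 := hun ν hfin hat
    have h4 : ν A₀ = 0 := measure_mono_null hA h3
    rw [Measure.restrict_apply_self, ← H_eq hf.2.2.1] at h4
    exact h1 h4
  refine ⟨X, hX.trans Ico_subset_Icc_self, ?_, ?_, hdich⟩
  · rcases hdich X subset_rfl with h | h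
    · rw [h] at hHpos
      exact absurd (le_antisymm hHpos zero_le) hpos
    · exact h
  · intro μ hμ h0
    have h1 : μ.toFinite X = 0 :=
      hun _ inferInstance fun x => toFinite_absolutelyContinuous μ (h0 x)
    exact absolutelyContinuous_toFinite μ h1

lemma unit_interval {f : ℝ≥0 → ℝ≥0} (h0 : f 0 = 0) {M : ℝ≥0}
    (hM : ∀ δ > 0, ∃ t, 0 < t ∧ t < δ ∧ f t ≤ M * t) (a : ℝ) :
    H f (Icc a (a + 1)) ≤ 2 * M := by
  refine iSup₂_le fun δ hδ => ?_
  obtain ⟨t, ht0, htδ, htM⟩ := hM (min δ 1) (by positivity)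
  have ht0' : (0 : ℝ) < t := by exact_mod_cast ht0
  let K : ℕ := ⌊(1 : ℝ) / t⌋₊ + 1
  let U : ℕ → Set ℝ := fun i => if i < K then Icc (a + i * t) (a + i * t + t) else ∅
  have hdiam : ∀ i, Metric.ediam (U i) ≤ t := by
    intro i
    by_cases h : i < K
    · simp only [U, h, if_true]
      rw [Real.ediam_Icc]
      simp
    · simp [U, h]
  have hterm : ∀ i, i < K → (f (Metric.ediam (U i)).toNNReal : ℝ≥0∞) = f t := by
    intro i h
    simp only [U, h, if_true]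
    rw [Real.ediam_Icc]
    simp
  refine iInf₂_le_of_le U ?_ (iInf_le_of_le ?_ ?_)
  · intro x hx
    rw [mem_iUnion]
    have hnn : 0 ≤ (x - a) / t := div_nonneg (by linarith [hx.1]) ht0'.le
    have hi1 : (⌊(x - a) / t⌋₊ : ℝ) ≤ (x - a) / t := Nat.floor_le hnn
    have hi2 : (x - a) / t < ⌊(x - a) / t⌋₊ + 1 := Nat.lt_floor_add_one _
    have hiK : ⌊(x - a) / t⌋₊ < K := by
      refine Nat.lt_succ_of_le (Nat.floor_mono ?_)
      gcongr
      linarith [hx.2]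
    refine ⟨⌊(x - a) / t⌋₊, ?_⟩
    simp only [U, hiK, if_true]
    rw [le_div_iff₀ ht0'] at hi1
    rw [div_lt_iff₀ ht0'] at hi2
    constructor
    · linarith
    · linarith
  · intro i
    refine (hdiam i).trans ?_
    exact_mod_cast (htδ.le.trans (min_le_left _ _))
  · rw [tsum_eq_sum (s := Finset.range K)]
    · rw [Finset.sum_congr rfl (fun i hi => hterm i (Finset.mem_range.1 hi))]
      rw [Finset.sum_const, Finset.card_range, nsmul_eq_mul]
      have h1 : (K : ℝ≥0) * f t ≤ 2 * M := by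
        have hK : (K : ℝ≥0) ≤ 1 / t + 1 := by
          rw [← NNReal.coe_le_coe]
          push_cast
          simp only [K]
          push_cast
          have : (⌊(1 : ℝ) / t⌋₊ : ℝ) ≤ 1 / t := Nat.floor_le (by positivity)
          linarith
        calc (K : ℝ≥0) * f t ≤ (1 / t + 1) * (M * t) := by gcongr
          _ = M * (1 + t) := by field_simp
          _ ≤ M * (1 + 1) := by
              gcongr
              exact htδ.le.trans (min_le_right _ _)
          _ = 2 * M := by ring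
      exact_mod_cast h1
    · intro i hi
      have : ¬ i < K := by simpa using hi
      simp [U, this, h0]

theorem flat_case {f : ℝ≥0 → ℝ≥0} (hf : IsGauge f)
    (hM : ∃ M : ℝ≥0, ∀ δ > 0, ∃ t, 0 < t ∧ t < δ ∧ f t ≤ M * t) : StarFor f := by
  obtain ⟨M, hM⟩ := hM
  intro A hA
  have hcov : A ⊆ ⋃ n : ℤ, A ∩ Icc (n : ℝ) (n + 1) := by
    intro t ht
    rw [mem_iUnion]
    exact ⟨⌊t⌋, ht, Int.floor_le t, (Int.lt_floor_add_one t).le⟩
  obtain ⟨n, hn⟩ : ∃ n : ℤ, 0 < H f (A ∩ Icc (n : ℝ) (n + 1)) := by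
    by_contra hcon
    push Not at hcon
    rw [H_eq hf.2.2.1] at hA
    have : Measure.mkMetric (cost f) A = 0 := by
      refine measure_mono_null hcov (measure_iUnion_null fun n => ?_)
      rw [← H_eq hf.2.2.1]
      exact le_antisymm (hcon n) zero_le
    exact absurd this hA.ne'
  refine ⟨_, inter_subset_left, hn, ?_⟩
  refine lt_of_le_of_lt ?_ (ENNReal.mul_lt_top ENNReal.ofNat_lt_top ENNReal.coe_lt_top :
    (2 : ℝ≥0∞) * M < ∞)
  refine le_trans ?_ (unit_interval hf.2.2.1 hM n)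
  rw [H_eq hf.2.2.1, H_eq hf.2.2.1]
  exact measure_mono inter_subset_right

lemma steep_of_not {f : ℝ≥0 → ℝ≥0}
    (h : ¬ ∃ M : ℝ≥0, ∀ δ > 0, ∃ t, 0 < t ∧ t < δ ∧ f t ≤ M * t) : Steep f := by
  push Not at h
  intro M
  obtain ⟨δ, hδ, h'⟩ := h M
  exact ⟨δ, hδ, fun t h1 h2 => (h' t h1 h2).le⟩

lemma sqrt_gauge : IsGauge NNReal.sqrt :=
  ⟨NNReal.sqrt.monotone, fun _ => NNReal.continuous_sqrt.continuousWithinAt, NNReal.sqrt_zero,
    fun _ h => NNReal.sqrt_pos.2 h⟩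

lemma sqrt_steep : Steep NNReal.sqrt := by
  intro M
  refine ⟨((M + 1) ^ 2)⁻¹, by positivity, fun t h1 h2 => ?_⟩
  have h3 : NNReal.sqrt t ≤ (M + 1)⁻¹ := by
    rw [NNReal.sqrt_le_iff_le_sq, inv_pow]
    exact h2.le
  calc M * t = M * NNReal.sqrt t * NNReal.sqrt t := by
        rw [mul_assoc, NNReal.mul_self_sqrt]
    _ ≤ (M + 1) * (M + 1)⁻¹ * NNReal.sqrt t := by
        gcongr
        exact le_self_add
    _ = NNReal.sqrt t := by
        rw [mul_inv_cancel₀ (by positivity), one_mul]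

/-- **Q1 answered: `(∗)` is refutable in ZFC.** -/
theorem result :
    -- `(∗)` fails
    (¬ Star) ∧
    -- exact dichotomy: `(∗)` for the single gauge `f` holds iff `liminf_{t → 0+} f(t)/t < ∞`
    (∀ f : ℝ≥0 → ℝ≥0, IsGauge f →
      (StarFor f ↔ ∃ M : ℝ≥0, ∀ δ > 0, ∃ t, 0 < t ∧ t < δ ∧ f t ≤ M * t)) ∧
    -- for every gauge with `f(t)/t → ∞` the counterexample is universally null
    (∀ f : ℝ≥0 → ℝ≥0, IsGauge f → Tendsto (fun t => f t / t) (𝓝[>] 0) atTop →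
      ∃ X : Set ℝ, X ⊆ Icc 0 1 ∧ H f X = ∞ ∧
        (∀ μ : Measure ℝ, SFinite μ → (∀ x, μ {x} = 0) → μ X = 0) ∧
        ∀ A₀ ⊆ X, H f A₀ = 0 ∨ H f A₀ = ∞) ∧
    -- `H f` is the limit of `H^f_δ` as `δ → 0+`, and equals Mathlib's metric outer measure
    (∀ (f : ℝ≥0 → ℝ≥0) (A : Set ℝ), Tendsto (fun δ => Hd f δ A) (𝓝[>] 0) (𝓝 (H f A))) := by
  have hdich : ∀ f : ℝ≥0 → ℝ≥0, IsGauge f →
      (StarFor f ↔ ∃ M : ℝ≥0, ∀ δ > 0, ∃ t, 0 < t ∧ t < δ ∧ f t ≤ M * t) := by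
    intro f hf
    constructor
    · intro hstar
      by_contra hcon
      obtain ⟨X, -, hX, -, hdich⟩ := steep_case hf (steep_of_not hcon)
      obtain ⟨A₀, hA, h1, h2⟩ := hstar X (by rw [hX]; exact ENNReal.coe_lt_top.trans_le le_top)
      rcases hdich A₀ hA with h | h
      · exact h1.ne' h
      · exact h2.ne h
    · exact flat_case hf
  refine ⟨?_, hdich, ?_, H_tendsto⟩
  · intro hstar
    obtain ⟨X, -, hX, -, hd⟩ := steep_case sqrt_gauge sqrt_steep
    obtain ⟨A₀, hA, h1, h2⟩ := hstar _ sqrt_gauge X (by rw [hX]; exact ENNReal.zero_lt_top)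
    rcases hd A₀ hA with h | h
    · exact h1.ne' h
    · exact h2.ne h
  · intro f hf ht
    apply steep_case hf
    intro M
    have h1 := ht.eventually (eventually_ge_atTop M)
    rw [eventually_nhdsWithin_iff] at h1
    obtain ⟨ε, hε, h2⟩ := Metric.eventually_nhds_iff.1 h1
    refine ⟨⟨ε, hε.le⟩, hε, fun t ht0 htε => ?_⟩
    have h3 := h2 (y := t) (by
      rw [NNReal.dist_eq]; simp
      exact_mod_cast htε) ht0
    rwa [le_div_iff₀ ht0] at h3

end Pool.Agent.Results.MP_b87f19_lc.GaugeDichotomy
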